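import Mathlib.Algebra.Group.Subsemigroup.Basic
import Mathlib.GroupTheory.FiniteAbelian.Basic
import Mathlib.Data.Fintype.Pigeonhole
import Mathlib.Data.Finsupp.Defs
import Mathlib.Algebra.Group.Finsupp
import Mathlib.Algebra.BigOperators.Finsupp.Basic
import Mathlib.Data.Int.Interval
import Mathlib.Order.Interval.Set.Basic

/-!
# MP_f4ff42_al : an f-noetherian completely regular semigroup that is not finitely generated

`S = ⟨x⟩ ∪ (ℤ × G × ℤ)`, where `⟨x⟩` is infinite cyclic and `G` is the free abelian group on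
`q_n` (`n ∈ ℤ`), with `x^n (i,g,l) = (i+n,g,l)`, `(i,g,l) x^n = (i,g,l+n)` and
`(i,g,l)(j,h,m) = (i, g + q_{l+j} + h, m)`.
-/

namespace Pool.Agent.Results.MP_f4ff42_al.NotFinitelyGenerated

/-- A right congruence on a semigroup. -/
structure RightCong (S : Type) [Semigroup S] extends Setoid S where
  mul_right : ∀ a b s : S, r a b → r (a * s) (b * s)

/-- `ρ` is the right congruence generated by `X`: the smallest one containing `X`. -/
def IsGeneratedBy {S : Type} [Semigroup S] (ρ : RightCong S) (X : Set (S × S)) : Prop :=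
  (∀ p ∈ X, ρ.r p.1 p.2) ∧
    ∀ σ : RightCong S, (∀ p ∈ X, σ.r p.1 p.2) → ∀ a b, ρ.r a b → σ.r a b

/-- Every right congruence of finite index is finitely generated. -/
def FNoetherian (S : Type) [Semigroup S] : Prop :=
  ∀ ρ : RightCong S, Finite (Quotient ρ.toSetoid) →
    ∃ X : Set (S × S), X.Finite ∧ IsGeneratedBy ρ X

/-- Every element lies in a subgroup: a subset closed under multiplication with a neutral element
and inverses. -/
def CompletelyRegular (S : Type) [Semigroup S] : Prop :=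
  ∀ a : S, ∃ H : Set S, a ∈ H ∧ (∀ x ∈ H, ∀ y ∈ H, x * y ∈ H) ∧
    ∃ e ∈ H, (∀ x ∈ H, e * x = x ∧ x * e = x) ∧ ∀ x ∈ H, ∃ y ∈ H, x * y = e ∧ y * x = e

/-- The semigroup is generated by a finite set. -/
def FinitelyGenerated (S : Type) [Semigroup S] : Prop :=
  ∃ X : Set S, X.Finite ∧ Subsemigroup.closure X = ⊤

/-! ### The semigroup -/

/-- the free abelian group on `q_n`, `n ∈ ℤ` -/
abbrev G : Type := ℤ →₀ ℤ

/-- the free generators -/
noncomputable def q (n : ℤ) : G := Finsupp.single n 1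

/-- the semigroup -/
inductive S : Type
  | x (n : ℤ) : S
  | t (i : ℤ) (g : G) (l : ℤ) : S

namespace S

/-- multiplication -/
noncomputable def mul : S → S → S
  | x m, x n => x (m + n)
  | x m, t i g l => t (i + m) g l
  | t i g l, x n => t i g (l + n)
  | t i g l, t j h m => t i (g + q (l + j) + h) m

noncomputable instance : Semigroup S where
  mul := mul
  mul_assoc a b c := by
    show mul (mul a b) c = mul a (mul b c)
    cases a <;> cases b <;> cases c <;> simp only [mul, S.x.injEq, S.t.injEq, true_and, and_true]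
    · exact add_assoc _ _ _
    · ring
    · exact add_assoc _ _ _
    · congr 2
      congr 1
      ring
    · simp only [add_assoc]

theorem xx (m n : ℤ) : x m * x n = x (m + n) := rfl
theorem xt (m i : ℤ) (g : G) (l : ℤ) : x m * t i g l = t (i + m) g l := rfl
theorem tx (i : ℤ) (g : G) (l n : ℤ) : t i g l * x n = t i g (l + n) := rfl
theorem tt (i : ℤ) (g : G) (l j : ℤ) (h : G) (m : ℤ) :
    t i g l * t j h m = t i (g + q (l + j) + h) m := rfl

end S

open S

theorem completelyRegular : CompletelyRegular S := by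
  intro a
  cases a with
  | x n =>
    refine ⟨{s | ∃ m, s = x m}, ⟨n, rfl⟩, ?_, x 0, ⟨0, rfl⟩, ?_, ?_⟩
    · rintro _ ⟨m, rfl⟩ _ ⟨k, rfl⟩; exact ⟨m + k, rfl⟩
    · rintro _ ⟨m, rfl⟩; rw [xx, xx, zero_add, add_zero]; exact ⟨rfl, rfl⟩
    · rintro _ ⟨m, rfl⟩; exact ⟨x (-m), ⟨_, rfl⟩, by rw [xx, add_neg_cancel],
        by rw [xx, neg_add_cancel]⟩
  | t i g l =>
    refine ⟨{s | ∃ h, s = t i h l}, ⟨g, rfl⟩, ?_, t i (- q (l + i)) l, ⟨_, rfl⟩, ?_, ?_⟩
    · rintro _ ⟨h, rfl⟩ _ ⟨k, rfl⟩; exact ⟨_, rfl⟩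
    · rintro _ ⟨h, rfl⟩
      rw [tt, tt]
      constructor
      · congr 1; abel
      · congr 1; abel
    · rintro _ ⟨h, rfl⟩
      refine ⟨t i (- h - q (l + i) - q (l + i)) l, ⟨_, rfl⟩, ?_, ?_⟩
      · rw [tt]; congr 1; abel
      · rw [tt]; congr 1; abel

theorem not_finitelyGenerated : ¬ FinitelyGenerated S := by
  rintro ⟨X, hX, htop⟩
  -- the `q_N`-coefficient
  let c : ℤ → S → ℤ := fun N s => match s with
    | x _ => 0
    | t _ g _ => g N
  -- a bound: only finitely many `N` occur in the elements of `X`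
  have hfin : (⋃ s ∈ X, {N : ℤ | c N s ≠ 0}).Finite := by
    refine hX.biUnion fun s _ => ?_
    cases s with
    | x n => exact Set.finite_empty.subset (fun N hN => hN rfl)
    | t i g l => exact g.hasFiniteSupport
  obtain ⟨N, hN⟩ := hfin.exists_notMem
  have hN' : ∀ s ∈ X, 0 ≤ c N s := by
    intro s hs
    by_contra h
    apply hN
    rw [Set.mem_iUnion₂]
    exact ⟨s, hs, fun h0 => h (by rw [h0])⟩
  have hall : ∀ s : S, 0 ≤ c N s := by
    intro s
    have hs : s ∈ Subsemigroup.closure X := by rw [htop]; trivial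
    induction hs using Subsemigroup.closure_induction with
    | mem s hs => exact hN' s hs
    | mul a b _ _ ha hb =>
      cases a with
      | x m =>
        cases b with
        | x n => exact le_refl _
        | t i g l => exact hb
      | t i g l =>
        cases b with
        | x n => exact ha
        | t j h m =>
          show 0 ≤ (g + q (l + j) + h) N
          rw [Finsupp.add_apply, Finsupp.add_apply]
          have h1 : 0 ≤ q (l + j) N := by
            rw [q, Finsupp.single_apply]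
            split_ifs <;> norm_num
          have h2 : 0 ≤ g N := ha
          have h3 : 0 ≤ h N := hb
          omega
  have h1 := hall (t 0 (- q N) 0)
  have h2 : c N (t 0 (- q N) 0) = -1 := by
    show (- q N) N = -1
    rw [Finsupp.neg_apply, q, Finsupp.single_eq_same]
  rw [h2] at h1
  exact absurd h1 (by norm_num)

/-! ### Periodicity from finite index -/

/-- If `A : ℤ → S` is such that the relation `ρ (A m) (A n)` is invariant under translation and
the index of `ρ` is at most `c`, then `ρ (A 0) (A P)` for every multiple `P` of `c!`. -/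
theorem period (ρ : RightCong S) [hfi : Finite (Quotient ρ.toSetoid)] (A : ℤ → S)
    (hA : ∀ m n l, ρ.r (A m) (A n) → ρ.r (A (m + l)) (A (n + l))) (P : ℕ)
    (hP : ∀ k : ℕ, 0 < k → k ≤ Nat.card (Quotient ρ.toSetoid) → k ∣ P) :
    ρ.r (A 0) (A P) := by
  set c := Nat.card (Quotient ρ.toSetoid) with hc
  have := Fintype.ofFinite (Quotient ρ.toSetoid)
  obtain ⟨m, n, hmn, hf⟩ := Fintype.exists_ne_map_eq_of_card_lt
    (fun k : Fin (c + 1) => Quotient.mk ρ.toSetoid (A (k : ℕ)))
    (by rw [Fintype.card_fin, hc, Nat.card_eq_fintype_card]; exact Nat.lt_succ_self _)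
  have hf' : ρ.r (A (m : ℕ)) (A (n : ℕ)) := Quotient.exact hf
  have hsym : ∀ {a b}, ρ.r a b → ρ.r b a := fun h => ρ.toSetoid.symm h
  have htr : ∀ {a b d}, ρ.r a b → ρ.r b d → ρ.r a d := fun h h' => ρ.toSetoid.trans h h'
  -- a positive period `k ≤ c`
  obtain ⟨k, hk0, hkc, hk⟩ : ∃ k : ℕ, 0 < k ∧ k ≤ c ∧ ρ.r (A 0) (A k) := by
    rcases lt_or_gt_of_ne (fun h => hmn (Fin.ext h) : (m : ℕ) ≠ n) with h | h
    · refine ⟨n - m, by omega, by omega, ?_⟩
      have := hA _ _ (-(m : ℕ) : ℤ) hf'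
      rw [add_neg_cancel] at this
      have h2 : ((n : ℕ) : ℤ) + -((m : ℕ) : ℤ) = (((n : ℕ) - (m : ℕ) : ℕ) : ℤ) := by
        rw [Nat.cast_sub h.le]; ring
      rwa [h2] at this
    · refine ⟨m - n, by omega, by omega, ?_⟩
      have := hA _ _ (-(n : ℕ) : ℤ) (hsym hf')
      rw [add_neg_cancel] at this
      have h2 : ((m : ℕ) : ℤ) + -((n : ℕ) : ℤ) = (((m : ℕ) - (n : ℕ) : ℕ) : ℤ) := by
        rw [Nat.cast_sub h.le]; ring
      rwa [h2] at this
  have hmul : ∀ j : ℕ, ρ.r (A 0) (A ((k * j : ℕ) : ℤ)) := by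
    intro j
    induction j with
    | zero => exact ρ.toSetoid.refl _
    | succ j ih =>
      refine htr ih ?_
      have := hA _ _ ((k * j : ℕ) : ℤ) hk
      rw [zero_add] at this
      have h2 : (k : ℤ) + ((k * j : ℕ) : ℤ) = ((k * (j + 1) : ℕ) : ℤ) := by push_cast; ring
      rwa [h2] at this
  obtain ⟨j, rfl⟩ := hP k hk0 hkc
  exact hmul j

/-- Reduction modulo a period. -/
theorem reduce (σ : RightCong S) (A : ℤ → S) (P : ℤ) (h : ∀ n, σ.r (A n) (A (n + P))) (n : ℤ) :
    σ.r (A n) (A (n % P)) := by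
  have htr : ∀ {a b d}, σ.r a b → σ.r b d → σ.r a d := fun h h' => σ.toSetoid.trans h h'
  have hsym : ∀ {a b}, σ.r a b → σ.r b a := fun h => σ.toSetoid.symm h
  have key : ∀ k m : ℤ, σ.r (A m) (A (m + k * P)) := by
    intro k
    induction k using Int.induction_on with
    | zero => intro m; rw [zero_mul, add_zero]
    | succ k ih =>
      intro m
      have := htr (ih m) (h _)
      rwa [show m + (k : ℤ) * P + P = m + ((k : ℤ) + 1) * P by ring] at this
    | pred k ih =>
      intro m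
      have h1 := h (m + (-(k : ℤ) - 1) * P)
      rw [show m + (-(k : ℤ) - 1) * P + P = m + (-(k : ℤ)) * P by ring] at h1
      exact htr (ih m) (hsym h1)
  have h1 := key (n / P) (n % P)
  rw [show n % P + n / P * P = n from Int.emod_add_ediv_mul n P] at h1
  exact hsym h1

/-- The subgroup of `G` generated by all `q_j - q_{j+P}` and all `P q_j`. -/
noncomputable def K (P : ℕ) : AddSubgroup G :=
  AddSubgroup.closure ({g | ∃ j : ℤ, g = q j - q (j + P)} ∪
    {g | ∃ j : ℤ, 0 ≤ j ∧ j < P ∧ g = (P : ℤ) • q j})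

theorem q_mem (P : ℕ) (j : ℤ) : q j - q (j % P) ∈ K P := by
  have hstep : ∀ j : ℤ, q j - q (j + P) ∈ K P := fun j =>
    AddSubgroup.subset_closure (Or.inl ⟨j, rfl⟩)
  have key : ∀ k m : ℤ, q m - q (m + k * P) ∈ K P := by
    intro k
    induction k using Int.induction_on with
    | zero => intro m; rw [zero_mul, add_zero, sub_self]; exact (K P).zero_mem
    | succ k ih =>
      intro m
      have := (K P).add_mem (ih m) (hstep (m + (k : ℤ) * P))
      rwa [sub_add_sub_cancel, show m + (k : ℤ) * P + P = m + ((k : ℤ) + 1) * P by ring] at this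
    | pred k ih =>
      intro m
      have h1 := hstep (m + (-(k : ℤ) - 1) * P)
      rw [show m + (-(k : ℤ) - 1) * P + P = m + (-(k : ℤ)) * P by ring] at h1
      have := (K P).sub_mem (ih m) h1
      rwa [sub_sub_sub_cancel_right] at this
  have h1 := key (j / P) (j % P)
  rw [show j % (P : ℤ) + j / P * P = j from Int.emod_add_ediv_mul j P] at h1
  rw [← neg_sub]
  exact (K P).neg_mem h1

theorem Pq_mem (P : ℕ) (hP : 0 < P) (j : ℤ) : (P : ℤ) • q j ∈ K P := by
  have h1 : (P : ℤ) • q (j % P) ∈ K P := AddSubgroup.subset_closure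
    (Or.inr ⟨j % P, Int.emod_nonneg _ (by omega), Int.emod_lt_of_pos _ (by omega), rfl⟩)
  have h2 := (K P).add_mem ((K P).zsmul_mem (q_mem P j) (P : ℤ)) h1
  rwa [← smul_add, sub_add_cancel] at h2

theorem single_eq (n a : ℤ) : (Finsupp.single n a : G) = a • q n := by
  rw [q, Finsupp.smul_single, smul_eq_mul, mul_one]

theorem K_index (P : ℕ) (hP : 0 < P) : Finite (G ⧸ K P) := by
  have hfg : AddGroup.FG (G ⧸ K P) := by
    refine (AddGroup.fg_iff).2 ⟨(fun j : ℤ => (QuotientAddGroup.mk (q j) : G ⧸ K P)) ''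
      (Set.Ico 0 (P : ℤ)), ?_, (Set.finite_Ico _ _).image _⟩
    rw [eq_top_iff]
    intro z _
    obtain ⟨g, rfl⟩ := QuotientAddGroup.mk_surjective z
    induction g using Finsupp.induction_linear with
    | zero => exact AddSubgroup.zero_mem _
    | add g h hg hh => exact AddSubgroup.add_mem _ (hg trivial) (hh trivial)
    | single n a =>
      rw [single_eq]
      have h1 : (QuotientAddGroup.mk (q n) : G ⧸ K P) = QuotientAddGroup.mk (q (n % P)) := by
        rw [QuotientAddGroup.eq]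
        have := (K P).neg_mem (q_mem P n)
        rwa [neg_sub, sub_eq_neg_add] at this
      have h2 : (QuotientAddGroup.mk (a • q n) : G ⧸ K P) =
          a • (QuotientAddGroup.mk (q (n % P)) : G ⧸ K P) := by
        rw [← h1]; rfl
      rw [h2]
      have h3 : n % (P : ℤ) ∈ Set.Ico 0 (P : ℤ) :=
        ⟨Int.emod_nonneg _ (by omega), Int.emod_lt_of_pos _ (by omega)⟩
      refine AddSubgroup.zsmul_mem _ (AddSubgroup.subset_closure ?_) _
      exact ⟨n % (P : ℤ), h3, rfl⟩
  refine AddCommGroup.finite_of_fg_isAddTorsion (G ⧸ K P) ?_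
  intro z
  obtain ⟨g, rfl⟩ := QuotientAddGroup.mk_surjective z
  refine isOfFinAddOrder_iff_nsmul_eq_zero.2 ⟨P, hP, ?_⟩
  rw [← QuotientAddGroup.mk_nsmul, QuotientAddGroup.eq_zero_iff]
  induction g using Finsupp.induction_linear with
  | zero => rw [smul_zero]; exact (K P).zero_mem
  | add g h hg hh => rw [smul_add]; exact (K P).add_mem hg hh
  | single n a =>
    rw [single_eq, smul_comm]
    have := (K P).zsmul_mem (Pq_mem P hP n) a
    rwa [natCast_zsmul] at this

/-- the finite set of representatives of `G / K P` -/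
noncomputable def Rep (P : ℕ) : Set G := Set.range fun c : G ⧸ K P => c.out

theorem Rep_finite (P : ℕ) (hP : 0 < P) : (Rep P).Finite := by
  have := K_index P hP
  exact Set.finite_range _

theorem Rep_spec (P : ℕ) (g : G) : ∃ a ∈ Rep P, a - g ∈ K P := by
  refine ⟨_, ⟨(QuotientAddGroup.mk g : G ⧸ K P), rfl⟩, ?_⟩
  have h1 : (QuotientAddGroup.mk g : G ⧸ K P) =
      QuotientAddGroup.mk ((QuotientAddGroup.mk g : G ⧸ K P).out) :=
    (QuotientAddGroup.out_eq' _).symm
  rw [QuotientAddGroup.eq] at h1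
  rwa [← sub_eq_neg_add] at h1

/-- The finite set of pairs that we use. -/
noncomputable def X0 (P : ℕ) : Set (S × S) :=
  {(x 0, x P)} ∪
  ((fun i : ℤ => (t i 0 0, t i 0 P)) '' Set.Ico 0 (P : ℤ)) ∪
  ((fun ij : ℤ × ℤ => (t ij.1 0 0, t ij.1 ((P : ℤ) • q ij.2) 0)) ''
    (Set.Ico 0 (P : ℤ) ×ˢ Set.Ico 0 (P : ℤ))) ∪
  ((fun ia : ℤ × G => (t ia.1 ia.2 0, t ia.1 ia.2 P)) '' (Set.Ico 0 (P : ℤ) ×ˢ Rep P))

theorem X0_finite (P : ℕ) (hP : 0 < P) : (X0 P).Finite := by
  unfold X0
  refine (((Set.finite_singleton _).union ((Set.finite_Ico _ _).image _)).union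
    (((Set.finite_Ico _ _).prod (Set.finite_Ico _ _)).image _)).union
    (((Set.finite_Ico _ _).prod (Rep_finite P hP)).image _)

/-- The finite set of representatives of the classes. -/
noncomputable def T (P : ℕ) : Set S :=
  (x '' Set.Ico 0 (P : ℤ)) ∪
  ((fun ial : ℤ × G × ℤ => t ial.1 ial.2.1 ial.2.2) ''
    (Set.Ico 0 (P : ℤ) ×ˢ (Rep P ×ˢ Set.Ico 0 (P : ℤ))))

theorem T_finite (P : ℕ) (hP : 0 < P) : (T P).Finite :=
  ((Set.finite_Ico _ _).image _).union
    (((Set.finite_Ico _ _).prod ((Rep_finite P hP).prod (Set.finite_Ico _ _))).image _)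

/-- Every right congruence containing `X0 P` relates each element to an element of `T P`. -/
theorem reduce_all (P : ℕ) (hP : 0 < P) (σ : RightCong S) (hσ : ∀ p ∈ X0 P, σ.r p.1 p.2) (s : S) :
    ∃ u ∈ T P, σ.r s u := by
  have htr : ∀ {a b d}, σ.r a b → σ.r b d → σ.r a d := fun h h' => σ.toSetoid.trans h h'
  have hsym : ∀ {a b}, σ.r a b → σ.r b a := fun h => σ.toSetoid.symm h
  have hrefl : ∀ a, σ.r a a := fun a => σ.toSetoid.refl a
  have hmod : ∀ n : ℤ, n % P ∈ Set.Ico 0 (P : ℤ) := fun n =>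
    ⟨Int.emod_nonneg _ (by omega), Int.emod_lt_of_pos _ (by omega)⟩
  -- the four kinds of generators
  have h1 : σ.r (x 0) (x P) := hσ (x 0, x P) (Or.inl (Or.inl (Or.inl rfl)))
  have h2 : ∀ i ∈ Set.Ico 0 (P : ℤ), σ.r (t i 0 0) (t i 0 P) := fun i hi =>
    hσ (t i 0 0, t i 0 P) (Or.inl (Or.inl (Or.inr ⟨i, hi, rfl⟩)))
  have h3 : ∀ i ∈ Set.Ico 0 (P : ℤ), ∀ j ∈ Set.Ico 0 (P : ℤ),
      σ.r (t i 0 0) (t i ((P : ℤ) • q j) 0) := fun i hi j hj =>
    hσ (t i 0 0, t i ((P : ℤ) • q j) 0) (Or.inl (Or.inr ⟨(i, j), ⟨hi, hj⟩, rfl⟩))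
  have h4 : ∀ i ∈ Set.Ico 0 (P : ℤ), ∀ a ∈ Rep P, σ.r (t i a 0) (t i a P) := fun i hi a ha =>
    hσ (t i a 0, t i a P) (Or.inr ⟨(i, a), ⟨hi, ha⟩, rfl⟩)
  cases s with
  | x n =>
    refine ⟨x (n % P), Or.inl ⟨_, hmod n, rfl⟩, reduce σ x P (fun n => ?_) n⟩
    have := σ.mul_right _ _ (x n) h1
    rwa [xx, xx, zero_add, add_comm (P : ℤ)] at this
  | t i g l =>
    -- reduce `i`
    have e1 : σ.r (t i g l) (t (i % P) g l) := by
      refine reduce σ (fun i => t i g l) P (fun i => ?_) i
      have := σ.mul_right _ _ (t i g l) h1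
      rwa [xt, xt, add_zero] at this
    -- reduce `g`
    have hi := hmod i
    set i' := i % (P : ℤ) with hi'
    have e2 : ∀ k ∈ K P, ∀ a m, σ.r (t i' a m) (t i' (a + k) m) := by
      intro k hk
      induction hk using AddSubgroup.closure_induction with
      | mem k hk =>
        rcases hk with ⟨j, rfl⟩ | ⟨j, hj0, hjP, rfl⟩
        · intro a m
          have := σ.mul_right _ _ (t j (a - q (j + P)) m) (h2 i' hi)
          rw [tt, tt] at this
          have e3 : (0 : G) + q (0 + j) + (a - q (j + P)) = a + (q j - q (j + P)) := by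
            rw [zero_add, zero_add]; abel
          have e4 : (0 : G) + q (P + j) + (a - q (j + P)) = a := by
            rw [zero_add, add_comm (P : ℤ) j]; abel
          rw [e3, e4] at this
          exact hsym this
        · intro a m
          have := σ.mul_right _ _ (t 0 (a - q 0) m) (h3 i' hi j ⟨hj0, hjP⟩)
          rw [tt, tt] at this
          have e3 : (0 : G) + q (0 + 0) + (a - q 0) = a := by
            rw [zero_add, zero_add]; abel
          have e4 : (P : ℤ) • q j + q (0 + 0) + (a - q 0) = a + (P : ℤ) • q j := by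
            rw [zero_add]; abel
          rw [e3, e4] at this
          exact this
      | zero => intro a m; rw [add_zero]
      | add k k' _ _ hk hk' =>
        intro a m
        rw [← add_assoc]
        exact htr (hk a m) (hk' _ m)
      | neg k _ hk =>
        intro a m
        have := hk (a + -k) m
        rw [neg_add_cancel_right] at this
        exact hsym this
    obtain ⟨a, ha, hag⟩ := Rep_spec P g
    have e5 : σ.r (t i' g l) (t i' a l) := by
      have := e2 _ hag g l
      rwa [add_sub_cancel] at this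
    -- reduce `l`
    have e6 : σ.r (t i' a l) (t i' a (l % P)) := by
      refine reduce σ (fun l => t i' a l) P (fun l => ?_) l
      have := σ.mul_right _ _ (x l) (h4 i' hi a ha)
      rwa [tx, tx, zero_add, add_comm (P : ℤ)] at this
    exact ⟨t i' a (l % P), Or.inr ⟨(i', a, l % P), ⟨hi, ha, hmod l⟩, rfl⟩,
      htr e1 (htr e5 e6)⟩

/-- The intersection of two right congruences. -/
def inter (ρ σ : RightCong S) : RightCong S where
  r a b := ρ.r a b ∧ σ.r a b
  iseqv := ⟨fun a => ⟨ρ.toSetoid.refl a, σ.toSetoid.refl a⟩,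
    fun h => ⟨ρ.toSetoid.symm h.1, σ.toSetoid.symm h.2⟩,
    fun h h' => ⟨ρ.toSetoid.trans h.1 h'.1, σ.toSetoid.trans h.2 h'.2⟩⟩
  mul_right a b s h := ⟨ρ.mul_right a b s h.1, σ.mul_right a b s h.2⟩

theorem fNoetherian : FNoetherian S := by
  intro ρ hfi
  set c := Nat.card (Quotient ρ.toSetoid) with hc
  set P := c.factorial with hPdef
  have hP : 0 < P := Nat.factorial_pos c
  have hdvd : ∀ k : ℕ, 0 < k → k ≤ c → k ∣ P := fun k hk hkc => Nat.dvd_factorial hk hkc
  have htr : ∀ {a b d}, ρ.r a b → ρ.r b d → ρ.r a d := fun h h' => ρ.toSetoid.trans h h'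
  have hsym : ∀ {a b}, ρ.r a b → ρ.r b a := fun h => ρ.toSetoid.symm h
  -- the pairs of `X0` are in `ρ`
  have hX0 : ∀ p ∈ X0 P, ρ.r p.1 p.2 := by
    have hl : ∀ (i : ℤ) (a : G), ρ.r (t i a 0) (t i a P) := by
      intro i a
      refine period ρ (fun l => t i a l) (fun m n l h => ?_) P hdvd
      exact ρ.mul_right _ _ (x l) h
    rintro p (((rfl | ⟨i, _, rfl⟩) | ⟨⟨i, j⟩, _, rfl⟩) | ⟨⟨i, a⟩, _, rfl⟩)
    · refine period ρ x (fun m n l h => ?_) P hdvd
      exact ρ.mul_right _ _ (x l) h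
    · exact hl i 0
    · have := period ρ (fun n => t i (n • q j) 0) (fun m n l h => ?_) P hdvd
      · simpa using this
      · have h1 := ρ.mul_right _ _ (t 0 (l • q j - q 0) 0) h
        rw [tt, tt] at h1
        have e1 : ∀ m : ℤ, m • q j + q (0 + 0) + (l • q j - q 0) = (m + l) • q j := by
          intro m; rw [add_smul, zero_add]; abel
        rw [e1, e1] at h1
        exact h1
    · exact hl i a
  refine ⟨X0 P ∪ {p | p ∈ T P ×ˢ T P ∧ ρ.r p.1 p.2}, ?_, ?_, ?_⟩
  · exact (X0_finite P hP).union (((T_finite P hP).prod (T_finite P hP)).subset fun p hp => hp.1)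
  · rintro p (hp | hp)
    · exact hX0 p hp
    · exact hp.2
  · intro σ hσ a b hab
    have hstr : ∀ {a b d}, σ.r a b → σ.r b d → σ.r a d := fun h h' => σ.toSetoid.trans h h'
    have hssym : ∀ {a b}, σ.r a b → σ.r b a := fun h => σ.toSetoid.symm h
    have hσ0 : ∀ p ∈ X0 P, σ.r p.1 p.2 := fun p hp => hσ p (Or.inl hp)
    have hi : ∀ p ∈ X0 P, (inter ρ σ).r p.1 p.2 := fun p hp => ⟨hX0 p hp, hσ0 p hp⟩
    obtain ⟨u, hu, hau⟩ := reduce_all P hP (inter ρ σ) hi a
    obtain ⟨v, hv, hbv⟩ := reduce_all P hP (inter ρ σ) hi b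
    have huv : ρ.r u v := htr (hsym hau.1) (htr hab hbv.1)
    exact hstr hau.2 (hstr (hσ (u, v) (Or.inr ⟨⟨hu, hv⟩, huv⟩)) (hssym hbv.2))

/-- There is a completely regular semigroup that is f-noetherian but not finitely generated. -/
theorem result :
    ∃ (S : Type) (_ : Semigroup S),
      CompletelyRegular S ∧ FNoetherian S ∧ ¬ FinitelyGenerated S :=
  ⟨S, inferInstance, completelyRegular, fNoetherian, not_finitelyGenerated⟩

end Pool.Agent.Results.MP_f4ff42_al.NotFinitelyGenerated
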